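import Pool.Agent.helper16.GK.Spec

set_option autoImplicit false

namespace Pool.Agent.GK

open NumberField IsDedekindDomain

theorem FRB_ne (K : Type) [Field K] [NumberField K] (v : Pl K) : nv K v ≠ 0 := by
  intro h
  exact v.ne_bot (Ideal.absNorm_eq_zero_iff.1 h)

theorem FRB_mem (K : Type) [Field K] [NumberField K] (v : Pl K) (q : ℕ) (hq : q.Prime) (h : q ∣ nv K v) :
    (q : 𝓞 K) ∈ v.asIdeal := by
  have hF : Fact q.Prime := ⟨hq⟩
  have hmax : v.asIdeal.IsPrime := v.isPrime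
  have hcard : Nat.card (𝓞 K ⧸ v.asIdeal) = nv K v := by
    show _ = Ideal.absNorm v.asIdeal
    rw [Ideal.absNorm_apply]
    rfl
  have hfin : Finite (𝓞 K ⧸ v.asIdeal) := by
    refine Nat.finite_of_card_ne_zero ?_
    rw [hcard]
    exact FRB_ne K v
  obtain ⟨x, hx⟩ := exists_prime_addOrderOf_dvd_card' (G := 𝓞 K ⧸ v.asIdeal) q (by rw [hcard]; exact h)
  have hx0 : x ≠ 0 := by
    intro h0
    rw [h0, addOrderOf_zero] at hx
    exact hq.one_lt.ne hx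
  have h1 : q • x = 0 := by
    rw [← hx]
    exact addOrderOf_nsmul_eq_zero x
  rw [nsmul_eq_mul] at h1
  have h2 : ((q : ℕ) : 𝓞 K ⧸ v.asIdeal) = 0 := (mul_eq_zero.1 h1).resolve_right hx0
  have h3 : Ideal.Quotient.mk v.asIdeal ((q : ℕ) : 𝓞 K) = 0 := by
    rw [map_natCast]
    exact h2
  exact Ideal.Quotient.eq_zero_iff_mem.1 h3

/-- **FRB** -/
theorem FRB (hDEN : DEN_stmt) (hFRQ : FRQ_stmt) (hGUP : GUP_stmt) : FRB_stmt := by
  intro K _ _
  refine ⟨fun v => ?_, ?_, FRB_ne K, fun q hq => ?_⟩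
  · obtain ⟨Q, hQ, hQv⟩ := hGUP K (AlgebraicClosure K) v.asIdeal v.isPrime
    obtain ⟨σ, hσ⟩ := hFRQ K Q v hQ hQv
    exact ⟨σ, Q, hQ, hQv, hσ⟩
  · rintro O T hO ⟨g, hg, -⟩ hT
    obtain ⟨v, hv, -, s, hs, hsO⟩ := hDEN K O T hO ⟨g, hg⟩ hT
    exact ⟨v, Set.mem_univ v, hv, s, hs, Subgroup.mem_top s, hsO⟩
  · have hI : Ideal.span {((q : ℕ) : 𝓞 K)} ≠ 0 := by
      rw [Ne, Ideal.zero_eq_bot, Ideal.span_singleton_eq_bot]
      exact_mod_cast hq.ne_zero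
    refine (Ideal.finite_factors hI).subset fun v hv => ?_
    show v.asIdeal ∣ Ideal.span {((q : ℕ) : 𝓞 K)}
    rw [Ideal.dvd_span_singleton]
    exact FRB_mem K v q hq hv

end Pool.Agent.GK
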